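import Pool.Agent.H83.UE.Targets3

/-! LIN: linear subspaces. -/

set_option autoImplicit false

open Polynomial MeasureTheory Filter Topology Set
open scoped OnePoint ComplexConjugate ComplexOrder Laplacian ENNReal Nat

namespace Pool.Agent.H58.UDB

open Pool.Agent.H83.UE

theorem pol_add {k : ℕ} (a b : Fin (k + 1) → ℂ) : pol (a + b) = pol a + pol b := by
  unfold pol
  rw [← Finset.sum_add_distrib]
  refine Finset.sum_congr rfl fun i _ => ?_
  rw [Pi.add_apply, C_add, add_mul]

theorem pol_smul {k : ℕ} (c : ℂ) (a : Fin (k + 1) → ℂ) : pol (c • a) = C c * pol a := by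
  unfold pol
  rw [Finset.mul_sum]
  refine Finset.sum_congr rfl fun i _ => ?_
  rw [Pi.smul_apply, smul_eq_mul, C_mul, mul_assoc]

theorem pf_LIN : T_LIN := by
  classical
  constructor
  · intro n W
    have hq : Module.finrank ℂ ((Fin n → ℂ) ⧸ W) = n - Module.finrank ℂ W := by
      rw [Submodule.finrank_quotient, Module.finrank_fin_fun]
    let b := Module.finBasisOfFinrankEq ℂ ((Fin n → ℂ) ⧸ W) hq
    let fw : Fin (n - Module.finrank ℂ W) → (Fin n → ℂ) →ₗ[ℂ] ℂ := fun i => (b.coord i) ∘ₗ W.mkQ
    have hfw : ∀ i (a : Fin n → ℂ), fw i a = ∑ j, a j * fw i (Pi.single j 1) := by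
      intro i a
      conv_lhs => rw [LinearMap.pi_apply_eq_sum_univ (fw i) a]
      refine Finset.sum_congr rfl fun j _ => ?_
      rw [smul_eq_mul]
      congr 2
      funext l
      by_cases h : j = l
      · subst h; simp
      · rw [if_neg h, Pi.single_eq_of_ne (Ne.symm h)]
    refine ⟨fun i => ∑ j, MvPolynomial.C (fw i (Pi.single j 1)) * MvPolynomial.X j, ?_, ?_⟩
    · intro i
      refine MvPolynomial.IsHomogeneous.sum _ _ _ fun j _ => ?_
      exact MvPolynomial.isHomogeneous_C_mul_X _ _
    · intro a
      have h1 : ∀ i, MvPolynomial.eval a (∑ j, MvPolynomial.C (fw i (Pi.single j 1)) *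
          MvPolynomial.X j) = fw i a := by
        intro i
        rw [map_sum, hfw]
        refine Finset.sum_congr rfl fun j _ => ?_
        rw [map_mul, MvPolynomial.eval_C, MvPolynomial.eval_X, mul_comm]
      simp only [h1]
      rw [← Submodule.Quotient.mk_eq_zero W]
      constructor
      · intro h i
        show b.coord i (Submodule.Quotient.mk a) = 0
        rw [h, map_zero]
      · intro h
        apply b.ext_elem
        intro i
        have h2 := h i
        rw [map_zero]
        exact h2
  · intro k j e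
    refine ⟨{ carrier := {a | Van e a}, add_mem' := ?_, zero_mem' := ?_, smul_mem' := ?_ },
      fun a => Iff.rfl⟩
    · rintro a a' ⟨b, hb, h⟩ ⟨b', hb', h'⟩
      refine ⟨b + b', (natDegree_add_le _ _).trans (max_le hb hb'), ?_⟩
      rw [pol_add, h, h', mul_add]
    · refine ⟨0, by simp, ?_⟩
      unfold pol
      simp
    · rintro c a ⟨b, hb, h⟩
      refine ⟨C c * b, (natDegree_C_mul_le _ _).trans hb, ?_⟩
      rw [pol_smul, h]
      ring

end Pool.Agent.H58.UDB
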