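import Pool.Agent.H83.UE.Targets3
import Pool.Agent.H16.UDA.SL

/-! SLE: the slices in terms of the current of a cycle, with the support of the current. -/

set_option autoImplicit false

open Polynomial MeasureTheory Filter Topology Set
open scoped OnePoint ComplexConjugate ComplexOrder Laplacian ENNReal Nat

namespace Pool.Agent.H58.UDB

open Pool.Agent.H83.UE Pool.Agent.H16.UDA

theorem pf_SLE (h1 : T_CY) (_h2 : T_AC) (_h3 : T_CO1) (_h4 : T_MON) (_h5 : T_TF) (_h6 : T_IT)
    (_h7 : T_AF) (_h8 : T_MEC) : T_SLE := by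
  intro k m d hd hmk g V δ hVm hV
  obtain ⟨c, r, S, u, hp1, hp2, hp3⟩ := hV.pieces
  have hp : Pieces m V c r S u := ⟨hp1, hp2, hp3⟩
  obtain ⟨T, hTc, hA, hB⟩ := h1 k m hmk V δ hV c r S u hp
  refine ⟨T, hTc, fun I J => ?_, fun n L hInt χ hχ hχs => ?_⟩
  · have hcoef : Continuous (coef : (Fin k → ℂ) → Fin k → ℂ) := by
      have h := (_h5 k k LinearMap.id (fun _ => 0)
        ⟨Finset.univ, by rw [Finset.card_univ, Fintype.card_fin]⟩
        ⟨Finset.univ, by rw [Finset.card_univ, Fintype.card_fin]⟩ continuous_const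
        HasCompactSupport.zero).1
      exact h.continuous
    have hW : MeasurableSet (coef ⁻¹' V : Set (Fin k → ℂ)) := hcoef.measurable hVm
    have e1 := hA ((coef ⁻¹' V : Set (Fin k → ℂ))ᶜ.indicator 1) I J
      (measurable_one.indicator hW.compl)
    have e2 : ∑' a, ∫⁻ t in S a, (coef ⁻¹' V : Set (Fin k → ℂ))ᶜ.indicator 1 (u a t) *
        (stab (Finset.univ.val.map (u a t)) : ℝ≥0∞) * ‖rmin (u a) I t‖ₑ *
          ‖rmin (u a) J t‖ₑ = 0 := by
      refine ENNReal.tsum_eq_zero.2 fun a => ?_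
      have e3 : ∫⁻ t in S a, (coef ⁻¹' V : Set (Fin k → ℂ))ᶜ.indicator 1 (u a t) *
          (stab (Finset.univ.val.map (u a t)) : ℝ≥0∞) * ‖rmin (u a) I t‖ₑ *
            ‖rmin (u a) J t‖ₑ = ∫⁻ t in S a, 0 := by
        refine setLIntegral_congr_fun (hp1 a).1 fun t ht => ?_
        have h4 : u a t ∈ coef ⁻¹' V := (hp1 a).2.2.2.2 (mem_image_of_mem _ ht)
        have h5 : u a t ∉ (coef ⁻¹' V : Set (Fin k → ℂ))ᶜ := fun h => h h4
        simp only [Set.indicator_of_notMem h5, zero_mul]
      rw [e3, lintegral_zero]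
    rw [e2] at e1
    have hm : Measurable fun z => (coef ⁻¹' V : Set (Fin k → ℂ))ᶜ.indicator 1 z *
        ‖T.h z I J‖ₑ := (measurable_one.indicator hW.compl).mul (T.meas I J).enorm
    rw [lintegral_eq_zero_iff hm] at e1
    filter_upwards [e1] with z hz hzV
    have h6 : z ∈ (coef ⁻¹' V : Set (Fin k → ℂ))ᶜ := hzV
    simp only [Set.indicator_of_mem h6, Pi.one_apply, one_mul, Pi.zero_apply, enorm_eq_zero] at hz
    exact hz
  classical
  -- measurability of the direct images
  have hmec : ∀ (f : (Fin k → ℂ) → ℂ), Continuous f → HasCompactSupport f → ∀ I J : Idx k m,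
      Measurable fun z => pushCoeff (fun _ => g) n I J (tform L f I J) z := by
    intro f hf hfs I J
    obtain ⟨-, t2, t3⟩ := _h5 k m L f I J hf hfs
    exact _h8 k m d hd (fun _ => g) n I J _ t2 t3
  -- the total mass of the terms
  have hmass : ∀ (f : (Fin k → ℂ) → ℂ), Continuous f → HasCompactSupport f → ∀ I J : Idx k m,
      ∑' a, ∫⁻ t in S a, ‖pushCoeff (fun _ => g) n I J (tform L f I J) (u a t)‖ₑ *
        (stab (Finset.univ.val.map (u a t)) : ℝ≥0∞) * ‖rmin (u a) I t‖ₑ * ‖rmin (u a) J t‖ₑ ≠ ⊤ := by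
    intro f hf hfs I J
    have e1 := hA (fun z => ‖pushCoeff (fun _ => g) n I J (tform L f I J) z‖ₑ) I J
      (hmec f hf hfs I J).enorm
    rw [← e1]
    have e2 := (hInt f hf hfs I J).2
    rw [hasFiniteIntegral_iff_enorm] at e2
    have e3 : ∫⁻ z, ‖pushCoeff (fun _ => g) n I J (tform L f I J) z‖ₑ * ‖T.h z I J‖ₑ ∂T.σ =
        ∫⁻ z, ‖pushCoeff (fun _ => g) n I J (tform L f I J) z * T.h z I J‖ₑ ∂T.σ := by
      refine lintegral_congr fun z => ?_
      rw [enorm_mul]
    rw [e3]
    exact e2.ne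
  -- the index sets are not empty
  obtain ⟨I₀, -⟩ : ∃ I : Idx k m, True := by
    obtain ⟨s, -, hs⟩ := Finset.exists_subset_card_eq (s := (Finset.univ : Finset (Fin k)))
      (n := m) (by rw [Finset.card_univ, Fintype.card_fin]; exact hmk)
    exact ⟨⟨s, hs⟩, trivial⟩
  have hdiff : Differentiable ℂ (fun x : Fin k → ℂ => L (coef x)) := (_h5 k m L χ I₀ I₀ hχ hχs).1
  have hcoef : Continuous (coef : (Fin k → ℂ) → Fin k → ℂ) := by
    have h := (_h5 k k LinearMap.id χ ⟨Finset.univ, by rw [Finset.card_univ, Fintype.card_fin]⟩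
      ⟨Finset.univ, by rw [Finset.card_univ, Fintype.card_fin]⟩ hχ hχs).1
    exact h.continuous
  have hχc : Continuous fun x => χ (coef x) := hχ.comp hcoef
  -- the set and the function
  set K : Set (Fin k → ℂ) := {x | χ (coef x) ≠ 0} with hK
  have hKm : MeasurableSet K := by
    have : IsOpen K := isOpen_ne_fun hχc continuous_const
    exact this.measurableSet
  have hFm : Measurable (FF g n χ) := measurable_FF _h6 hd g n χ hχc.measurable
  obtain ⟨B, hBd⟩ := hχ.bounded_above_of_compact_support hχs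
  have hFb := norm_FF_le _h6 _h4 hd g n χ B hBd
  have hFK : ∀ x, FF g n χ x ≠ 0 → x ∈ K := by
    intro x hx h0
    apply hx
    unfold FF
    rw [h0, mul_zero]
  -- the cut-off function
  obtain ⟨R, hR⟩ := hχs.isCompact.isBounded.subset_closedBall (0 : Fin k → ℂ)
  set e : (Fin k → ℂ) → ℝ := fun w => max 0 (min 1 (R + 1 - ‖w‖)) with he
  have hec : Continuous e := by
    rw [he]
    fun_prop
  have he0 : ∀ w, 0 ≤ e w := fun w => le_max_left _ _
  have hecc : Continuous fun w => (e w : ℂ) := Complex.continuous_ofReal.comp hec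
  have hecs : HasCompactSupport fun w => (e w : ℂ) := by
    refine HasCompactSupport.intro (isCompact_closedBall (0 : Fin k → ℂ) (R + 1)) fun w hw => ?_
    rw [mem_closedBall_zero_iff, not_le] at hw
    have h3 : e w = 0 := by
      rw [he]
      simp only
      refine max_eq_left ((min_le_right _ _).trans ?_)
      linarith
    rw [h3, Complex.ofReal_zero]
  have heK : ∀ x ∈ K, 1 ≤ e (coef x) := by
    intro x hx
    have h4 : coef x ∈ tsupport χ := subset_tsupport χ hx
    have h5 := hR h4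
    rw [mem_closedBall_zero_iff] at h5
    rw [he]
    simp only
    refine le_max_of_le_right (le_min le_rfl ?_)
    linarith
  -- the hypothesis of AC
  have hfin : ∑' a, ∫⁻ t in S a, ∑ x ∈ fibre g n (u a t), K.indicator 1 x *
      ENNReal.ofReal (‖bdet g n (fun x => L (coef x)) (u a) t x‖ ^ 2) ≠ ⊤ := by
    have h6 : ∑' a, ∫⁻ t in S a, ∑ x ∈ fibre g n (u a t), K.indicator 1 x *
        ENNReal.ofReal (‖bdet g n (fun x => L (coef x)) (u a) t x‖ ^ 2) ≤
        ∑' a, (Fintype.card (Idx k m) : ℝ≥0∞) * ∑ I : Idx k m, ∫⁻ t in S a,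
          ‖pushCoeff (fun _ => g) n I I (tform L (fun w => (e w : ℂ)) I I) (u a t)‖ₑ *
          (stab (Finset.univ.val.map (u a t)) : ℝ≥0∞) * ‖rmin (u a) I t‖ₑ *
            ‖rmin (u a) I t‖ₑ := by
      refine ENNReal.tsum_le_tsum fun a => ?_
      refine (lintegral_mono fun t => enn_bound _h6 hd g n L e he0 K heK (u a) t).trans ?_
      rw [lintegral_const_mul' _ _ (ENNReal.natCast_ne_top _)]
      refine mul_le_mul_right ?_ _
      rw [lintegral_finsetSum']
      intro I _
      exact aem_weight hp a _ (hmec _ hecc hecs I I) I I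
    refine ne_top_of_le_ne_top ?_ h6
    rw [ENNReal.tsum_mul_left]
    refine ENNReal.mul_ne_top (ENNReal.natCast_ne_top _) ?_
    rw [Summable.tsum_finsetSum (fun I _ => ENNReal.summable)]
    exact ENNReal.sum_ne_top.2 fun I _ => hmass _ hecc hecs I I
  obtain ⟨hae, hac⟩ := _h2 k m d hd g n V c r S u hp (fun x => L (coef x)) K (FF g n χ) _ hdiff
    hKm hFm hFb hFK hfin
  -- the slice
  have hslice : slice g n V L χ = (k ! : ℂ)⁻¹ * ∫ y : Fin m → ℂ,
      ∑ᶠ x ∈ {x : Fin k → ℂ | RegT g n x ∧ coef (valT g n x) ∈ V ∧ L (coef x) = y},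
        FF g n χ x := by
    unfold slice
    rw [← integral_const_mul]
    refine integral_congr_ae ?_
    filter_upwards [hae] with y hy
    exact _h3 k m d g n V L χ y hy
  rw [hslice, hac]
  congr 1
  have hi : ∀ (a : ℕ) (I J : Idx k m), Integrable (fun t =>
      pushCoeff (fun _ => g) n I J (tform L χ I J) (u a t) *
      (stab (Finset.univ.val.map (u a t)) : ℂ) * (rmin (u a) I t * conj (rmin (u a) J t)))
      (volume.restrict (S a)) := by
    intro a I J
    refine ⟨(aem_term hp a _ (hmec χ hχ hχs I J) I J).aestronglyMeasurable, ?_⟩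
    rw [hasFiniteIntegral_iff_enorm]
    refine lt_of_le_of_lt ?_ (lt_top_iff_ne_top.2 (hmass χ hχ hχs I J))
    refine le_trans (le_of_eq ?_) (ENNReal.le_tsum a)
    refine lintegral_congr fun t => ?_
    rw [enorm_term]
  have hterm : ∀ a, ∫ t in S a, ∑ x ∈ fibre g n (u a t), FF g n χ x *
      ((‖bdet g n (fun x => L (coef x)) (u a) t x‖ ^ 2 : ℝ) : ℂ) =
      ∑ I : Idx k m, ∑ J : Idx k m, ∫ t in S a,
        pushCoeff (fun _ => g) n I J (tform L χ I J) (u a t) *
        (stab (Finset.univ.val.map (u a t)) : ℂ) *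
          (rmin (u a) I t * conj (rmin (u a) J t)) := by
    intro a
    rw [integral_congr_ae (Filter.Eventually.of_forall fun t => sum_fibre _h6 hd g n L χ (u a) t)]
    rw [integral_finsetSum _ (fun I _ => integrable_finsetSum _ fun J _ => hi a I J)]
    refine Finset.sum_congr rfl fun I _ => ?_
    rw [integral_finsetSum _ (fun J _ => hi a I J)]
  have hsum : ∀ I J : Idx k m, Summable fun a => ∫ t in S a,
        pushCoeff (fun _ => g) n I J (tform L χ I J) (u a t) *
        (stab (Finset.univ.val.map (u a t)) : ℂ) *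
          (rmin (u a) I t * conj (rmin (u a) J t)) := by
    intro I J
    refine Summable.of_norm_bounded (ENNReal.summable_toReal (hmass χ hχ hχs I J)) fun a => ?_
    refine (norm_integral_le_lintegral_norm _).trans (le_of_eq ?_)
    congr 1
    refine lintegral_congr fun t => ?_
    rw [ofReal_norm, enorm_term]
  rw [tsum_congr hterm, Summable.tsum_finsetSum (fun I _ => summable_sum fun J _ => hsum I J)]
  refine Finset.sum_congr rfl fun I _ => ?_
  rw [Summable.tsum_finsetSum (fun J _ => hsum I J)]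
  refine Finset.sum_congr rfl fun J _ => ?_
  exact (hB _ I J (hmec χ hχ hχs I J) (hInt χ hχ hχs I J)).symm

end Pool.Agent.H58.UDB
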